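import Pool.Agent.Run7.h330.Fin

/-!
Sets with a plane that contains at least `n/2 + 1` of the points.
-/

set_option autoImplicit false
open Classical

namespace Pool.Agent.Results.MP_f1cd07_co.RichPlane

/-- A finite set of `n` points of real 3-space, no three collinear, not coplanar, of which at
least `n/2 + 1` are coplanar, has at least `E(n)` planes meeting it in exactly three points, with
`E(n) = n²/4 - n, 3n²/8 - n + 5/8, n²/4 - n/2, 3n²/8 - 3n/2 + 17/8` for `n = 0, 1, 2, 3 mod 4`. -/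
theorem result :
    ∀ S A : Finset (EuclideanSpace ℝ (Fin 3)),
      ¬ Coplanar ℝ (S : Set (EuclideanSpace ℝ (Fin 3))) →
      (∀ T : Finset (EuclideanSpace ℝ (Fin 3)), T ⊆ S → T.card = 3 →
        ¬ Collinear ℝ (T : Set (EuclideanSpace ℝ (Fin 3)))) →
      A ⊆ S → Coplanar ℝ (A : Set (EuclideanSpace ℝ (Fin 3))) → S.card + 2 ≤ 2 * A.card →
      (if S.card % 4 = 0 then (S.card : ℝ) ^ 2 / 4 - (S.card : ℝ)
        else if S.card % 4 = 1 then 3 * (S.card : ℝ) ^ 2 / 8 - (S.card : ℝ) + 5 / 8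
        else if S.card % 4 = 2 then (S.card : ℝ) ^ 2 / 4 - (S.card : ℝ) / 2
        else 3 * (S.card : ℝ) ^ 2 / 8 - 3 * (S.card : ℝ) / 2 + 17 / 8) ≤
        (((S.powersetCard 3).filter (fun T : Finset (EuclideanSpace ℝ (Fin 3)) =>
            ∀ p ∈ S, p ∈ affineSpan ℝ (T : Set (EuclideanSpace ℝ (Fin 3))) → p ∈ T)).card : ℝ) := by
  intro S A hS h3 hAS hA hc
  have hV : Module.finrank ℝ (EuclideanSpace ℝ (Fin 3)) = 3 := by simp
  have h := Run7.h330.final_rich hV S hS h3 A hAS hA hc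
  unfold Run7.h330.EE Run7.h330.ordT at h
  convert h

end Pool.Agent.Results.MP_f1cd07_co.RichPlane
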