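import Pool.Agent.Run7.h330.Fin

/-!
Sets contained in the union of two planes: for EVERY number `n` of points the number of ordinary
planes is at least the value which `e₃(n)` takes for large `n` (in each residue class mod 4).
-/

set_option autoImplicit false
open Classical

namespace Pool.Agent.Results.MP_f1cd07_co.TwoPlanes

/-- A finite set of points of real 3-space, no three collinear, not coplanar, that is the union of
two coplanar sets, has at least `E(n)` planes meeting it in exactly three points, with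
`E(n) = n²/4 - n, 3n²/8 - n + 5/8, n²/4 - n/2, 3n²/8 - 3n/2 + 17/8` for `n = 0, 1, 2, 3 mod 4`. -/
theorem result :
    ∀ (S : Finset (EuclideanSpace ℝ (Fin 3))) (A B : Set (EuclideanSpace ℝ (Fin 3))),
      ¬ Coplanar ℝ (S : Set (EuclideanSpace ℝ (Fin 3))) →
      (∀ T : Finset (EuclideanSpace ℝ (Fin 3)), T ⊆ S → T.card = 3 →
        ¬ Collinear ℝ (T : Set (EuclideanSpace ℝ (Fin 3)))) →
      Coplanar ℝ A → Coplanar ℝ B → (S : Set (EuclideanSpace ℝ (Fin 3))) ⊆ A ∪ B →
      (if S.card % 4 = 0 then (S.card : ℝ) ^ 2 / 4 - (S.card : ℝ)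
        else if S.card % 4 = 1 then 3 * (S.card : ℝ) ^ 2 / 8 - (S.card : ℝ) + 5 / 8
        else if S.card % 4 = 2 then (S.card : ℝ) ^ 2 / 4 - (S.card : ℝ) / 2
        else 3 * (S.card : ℝ) ^ 2 / 8 - 3 * (S.card : ℝ) / 2 + 17 / 8) ≤
        (((S.powersetCard 3).filter (fun T : Finset (EuclideanSpace ℝ (Fin 3)) =>
            ∀ p ∈ S, p ∈ affineSpan ℝ (T : Set (EuclideanSpace ℝ (Fin 3))) → p ∈ T)).card : ℝ) := by
  intro S A B hS h3 hA hB hAB
  have hV : Module.finrank ℝ (EuclideanSpace ℝ (Fin 3)) = 3 := by simp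
  have h := Run7.h330.final_two hV S hS h3 A B hA hB hAB
  unfold Run7.h330.EE Run7.h330.ordT at h
  convert h

end Pool.Agent.Results.MP_f1cd07_co.TwoPlanes
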